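import Mathlib

/-!
# The largest characteristic factor of a product with an identity map

For every characteristic class `F` which contains the identity maps, every automorphism `T` of a
standard probability space and every standard probability space `(Y, 𝒞, ν)`:
`A(F)(T × Id_Y) = A(F)(T) ⊗ 𝒞` modulo null sets.

Idea. Let `D` be a set of `A(F)(T × Id_Y)` and `C ∈ 𝒞`.  On `X × Y^ℕ` the sets
`{(x, y) : (x, y_i) ∈ D, y_i ∈ C}` belong to a countable joining of members of `F`.  By the law of
large numbers the averages of their indicators converge to `ν {y ∈ C : (x, y) ∈ D}`, so this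
function of `x` is measurable with respect to a factor of `T` belonging to `F`.  Hence the measures
`ν (· ∩ D_x)` form a kernel from `(X, A(F)(T))` to `Y`, and its jointly measurable density with
respect to `ν` is the indicator function of `D`.
-/

set_option autoImplicit false

open MeasureTheory ProbabilityTheory Filter Topology Set
open scoped ENNReal

namespace Pool.Agent.Results.MP_5351bf_an.ProductFormula

/-- An automorphism of a standard probability space: a standard Borel space `X` with a probability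
measure `μ` and an invertible bimeasurable map `T` preserving `μ`. -/
structure Autom where
  /-- the space -/
  X : Type
  [ms : MeasurableSpace X]
  [sb : StandardBorelSpace X]
  /-- the measure -/
  μ : Measure X
  [pr : IsProbabilityMeasure μ]
  /-- the automorphism -/
  T : X ≃ᵐ X
  mp : MeasurePreserving T μ μ

attribute [instance] Autom.ms Autom.sb Autom.pr

/-- `π` is a factor map from `R` to `Q`: measure preserving and equivariant almost everywhere. -/
structure IsFactorMap (R Q : Autom) (π : R.X → Q.X) : Prop where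
  mp : MeasurePreserving π R.μ Q.μ
  eqv : ∀ᵐ x ∂(R.μ), π (R.T x) = Q.T (π x)

/-- The identity map of a standard probability space. -/
def idAutom (Y : Type) [MeasurableSpace Y] [StandardBorelSpace Y] (ν : Measure Y)
    [IsProbabilityMeasure ν] : Autom where
  X := Y
  μ := ν
  T := MeasurableEquiv.refl Y
  mp := MeasurePreserving.id ν

/-- The product `T × Id_Y` of an automorphism `T` with the identity map of `(Y, ν)`. -/
noncomputable def Autom.prodId (S : Autom) (Y : Type) [MeasurableSpace Y] [StandardBorelSpace Y]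
    (ν : Measure Y) [IsProbabilityMeasure ν] : Autom where
  X := S.X × Y
  μ := S.μ.prod ν
  T := S.T.prodCongr (MeasurableEquiv.refl Y)
  mp := S.mp.prod (MeasurePreserving.id ν)

/-- The system given by the product map on a countable product space and an invariant measure `κ`
on it; it is a joining of the `Q i` if `κ` has marginals `(Q i).μ`. -/
def joinAutom {ι : Type} [Countable ι] (Q : ι → Autom) (κ : Measure (∀ i, (Q i).X))
    [IsProbabilityMeasure κ]
    (h : MeasurePreserving (MeasurableEquiv.piCongrRight fun i => (Q i).T) κ κ) : Autom where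
  X := ∀ i, (Q i).X
  μ := κ
  T := MeasurableEquiv.piCongrRight fun i => (Q i).T
  mp := h

/-- A characteristic class containing the identity maps: closed under factors (hence under
isomorphism) and under countable joinings, and containing the identity map of every standard
probability space. -/
structure IsCharacteristicClass (F : Set Autom) : Prop where
  factor : ∀ (R Q : Autom) (π : R.X → Q.X), IsFactorMap R Q π → R ∈ F → Q ∈ F
  joining : ∀ (ι : Type) [Countable ι] (Q : ι → Autom) (κ : Measure (∀ i, (Q i).X))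
    [IsProbabilityMeasure κ]
    (h : MeasurePreserving (MeasurableEquiv.piCongrRight fun i => (Q i).T) κ κ),
    (∀ i, κ.map (fun z => z i) = (Q i).μ) → (∀ i, Q i ∈ F) → joinAutom Q κ h ∈ F
  identity : ∀ (Y : Type) [MeasurableSpace Y] [StandardBorelSpace Y] (ν : Measure Y)
    [IsProbabilityMeasure ν], idAutom Y ν ∈ F

/-- `m` is (modulo null sets) the σ-algebra `A(F)(R)`: it is the σ-algebra of a factor belonging to
`F`, and it contains the σ-algebra of every factor belonging to `F`. -/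
structure IsLargestFactor (F : Set Autom) (R : Autom) (m : MeasurableSpace R.X) : Prop where
  le : m ≤ R.ms
  mem : ∃ Q ∈ F, ∃ π : R.X → Q.X, IsFactorMap R Q π ∧
    (∀ A, MeasurableSet[m] A → ∃ B, MeasurableSet B ∧ A =ᵐ[R.μ] π ⁻¹' B) ∧
    (∀ B, MeasurableSet B → ∃ A, MeasurableSet[m] A ∧ A =ᵐ[R.μ] π ⁻¹' B)
  largest : ∀ Q ∈ F, ∀ π : R.X → Q.X, IsFactorMap R Q π →
    ∀ B, MeasurableSet B → ∃ A, MeasurableSet[m] A ∧ A =ᵐ[R.μ] π ⁻¹' B

/-! ### Proofs -/

/-- the sets of `A(F)(R)` -/
def FM (F : Set Autom) (R : Autom) (A : Set R.X) : Prop :=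
  MeasurableSet A ∧ ∃ Q ∈ F, ∃ π : R.X → Q.X, IsFactorMap R Q π ∧
    ∃ B, MeasurableSet B ∧ A =ᵐ[R.μ] π ⁻¹' B

theorem IsFactorMap.comp {R Q P : Autom} {π : R.X → Q.X} {ρ : Q.X → P.X}
    (hρ : IsFactorMap Q P ρ) (hπ : IsFactorMap R Q π) : IsFactorMap R P (ρ ∘ π) := by
  refine ⟨hρ.mp.comp hπ.mp, ?_⟩
  filter_upwards [hπ.eqv, hπ.mp.quasiMeasurePreserving.ae hρ.eqv] with x h1 h2
  simp only [Function.comp_apply, h1, h2]

section join

variable {ι : Type} [Countable ι] {F : Set Autom} {R : Autom} {Q : ι → Autom}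
  {π : ∀ i, R.X → (Q i).X}

omit [Countable ι] in
theorem join_meas (hπ : ∀ i, IsFactorMap R (Q i) (π i)) : Measurable fun x i => π i x :=
  measurable_pi_lambda _ fun i => (hπ i).mp.measurable

theorem join_eqv (hπ : ∀ i, IsFactorMap R (Q i) (π i)) : ∀ᵐ x ∂(R.μ),
    (fun i => π i (R.T x)) = (MeasurableEquiv.piCongrRight fun i => (Q i).T) (fun i => π i x) := by
  filter_upwards [ae_all_iff.2 fun i => (hπ i).eqv] with x hx
  funext i
  exact hx i

theorem join_mp (hπ : ∀ i, IsFactorMap R (Q i) (π i)) :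
    MeasurePreserving (MeasurableEquiv.piCongrRight fun i => (Q i).T)
      (R.μ.map fun x i => π i x) (R.μ.map fun x i => π i x) := by
  refine ⟨MeasurableEquiv.measurable _, ?_⟩
  rw [Measure.map_map (MeasurableEquiv.measurable _) (join_meas hπ)]
  have h1 : (⇑(MeasurableEquiv.piCongrRight fun i => (Q i).T) ∘ fun x i => π i x) =ᵐ[R.μ]
      (fun x i => π i x) ∘ R.T := by
    filter_upwards [join_eqv hπ] with x hx
    exact hx.symm
  rw [Measure.map_congr h1, ← Measure.map_map (join_meas hπ) R.T.measurable, R.mp.map_eq]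

theorem exists_join (hF : IsCharacteristicClass F) (hQ : ∀ i, Q i ∈ F)
    (hπ : ∀ i, IsFactorMap R (Q i) (π i)) :
    ∃ J ∈ F, ∃ (e : J.X → ∀ i, (Q i).X) (Φ : R.X → J.X), Measurable e ∧ IsFactorMap R J Φ ∧
      ∀ x i, e (Φ x) i = π i x := by
  have : IsProbabilityMeasure (R.μ.map fun x i => π i x) :=
    Measure.isProbabilityMeasure_map (join_meas hπ).aemeasurable
  refine ⟨joinAutom Q (R.μ.map fun x i => π i x) (join_mp hπ), ?_, fun z => z, fun x i => π i x,
    measurable_id, ⟨⟨join_meas hπ, rfl⟩, join_eqv hπ⟩, fun x i => rfl⟩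
  refine hF.joining ι Q _ (join_mp hπ) (fun i => ?_) hQ
  rw [Measure.map_map (measurable_pi_apply i) (join_meas hπ)]
  exact (hπ i).mp.map_eq

end join

variable {F : Set Autom}

theorem fm_congr {R : Autom} {A A' : Set R.X} (h : FM F R A) (hA' : MeasurableSet A')
    (he : A' =ᵐ[R.μ] A) : FM F R A' := by
  obtain ⟨-, Q, hQ, π, hπ, B, hB, hAB⟩ := h
  exact ⟨hA', Q, hQ, π, hπ, B, hB, he.trans hAB⟩

theorem fm_compl {R : Autom} {A : Set R.X} (h : FM F R A) : FM F R Aᶜ := by
  obtain ⟨hA, Q, hQ, π, hπ, B, hB, hAB⟩ := h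
  exact ⟨hA.compl, Q, hQ, π, hπ, Bᶜ, hB.compl, by rw [preimage_compl]; exact hAB.compl⟩

theorem fm_iUnion (hF : IsCharacteristicClass F) {R : Autom} {A : ℕ → Set R.X}
    (h : ∀ n, FM F R (A n)) : FM F R (⋃ n, A n) := by
  choose hA Q hQ π hπ B hB hAB using h
  obtain ⟨J, hJ, e, Φ, he, hΦ, heΦ⟩ := exists_join hF hQ hπ
  refine ⟨MeasurableSet.iUnion hA, J, hJ, Φ, hΦ, ⋃ n, (fun z => e z n) ⁻¹' (B n), ?_, ?_⟩
  · exact MeasurableSet.iUnion fun n => (measurable_pi_apply n |>.comp he) (hB n)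
  · rw [preimage_iUnion]
    refine Filter.EventuallyEq.countable_iUnion fun n => ?_
    refine (hAB n).trans (Filter.EventuallyEq.of_eq (Set.ext fun x => ?_))
    simp only [mem_preimage, heΦ]

theorem fm_univ (hF : IsCharacteristicClass F) (R : Autom) : FM F R univ := by
  refine ⟨MeasurableSet.univ, idAutom Unit (Measure.dirac ()), hF.identity _ _, fun _ => (),
    ⟨⟨measurable_const, ?_⟩, Eventually.of_forall fun x => rfl⟩, univ, MeasurableSet.univ, ?_⟩
  · change Measure.map (fun _ : R.X => ()) R.μ = Measure.dirac ()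
    rw [Measure.map_const]
    simp
  · rfl

/-- the σ-algebra `A(F)(R)`, completed by the null sets -/
@[instance_reducible] def alg (hF : IsCharacteristicClass F) (R : Autom) : MeasurableSpace R.X where
  MeasurableSet' := FM F R
  measurableSet_empty := by simpa using fm_compl (fm_univ hF R)
  measurableSet_compl _ h := fm_compl h
  measurableSet_iUnion _ h := fm_iUnion hF h

theorem alg_le (hF : IsCharacteristicClass F) (R : Autom) : alg hF R ≤ R.ms :=
  fun _ h => h.1

/-- iterates of an automorphism, indexed by the integers -/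
def it (R : Autom) (k : ℤ) (x : R.X) : R.X := ((R.T.toEquiv : Equiv.Perm R.X) ^ k) x

theorem it_zero (R : Autom) (x : R.X) : it R 0 x = x := rfl

theorem it_succ (R : Autom) (k : ℤ) (x : R.X) : it R (k + 1) x = it R k (R.T x) := by
  simp only [it, zpow_add_one]
  rfl

theorem it_pred (R : Autom) (k : ℤ) (x : R.X) : it R (k - 1) x = it R k (R.T.symm x) := by
  simp only [it, zpow_sub_one]
  rfl

theorem symm_mp (R : Autom) : MeasurePreserving R.T.symm R.μ R.μ := R.mp.symm

theorem it_mp (R : Autom) (k : ℤ) : MeasurePreserving (it R k) R.μ R.μ := by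
  induction k using Int.induction_on with
  | zero => exact MeasurePreserving.id _
  | succ k ih =>
    have : it R ((k : ℤ) + 1) = it R k ∘ R.T := funext fun x => it_succ R k x
    rw [this]
    exact ih.comp R.mp
  | pred k ih =>
    have : it R (-(k : ℤ) - 1) = it R (-(k : ℤ)) ∘ R.T.symm := funext fun x => it_pred R _ x
    rw [this]
    exact ih.comp (symm_mp R)

theorem it_eqv {R Q : Autom} {π : R.X → Q.X} (hπ : IsFactorMap R Q π) (k : ℤ) :
    ∀ᵐ x ∂(R.μ), π (it R k x) = it Q k (π x) := by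
  induction k using Int.induction_on with
  | zero => exact Eventually.of_forall fun x => rfl
  | succ k ih =>
    filter_upwards [hπ.eqv, R.mp.quasiMeasurePreserving.ae ih] with x h1 h2
    rw [it_succ, h2, h1, it_succ]
  | pred k ih =>
    filter_upwards [(symm_mp R).quasiMeasurePreserving.ae hπ.eqv,
      (symm_mp R).quasiMeasurePreserving.ae ih] with x h1 h2
    rw [it_pred, h2, it_pred]
    congr 1
    rw [MeasurableEquiv.apply_symm_apply] at h1
    rw [h1, MeasurableEquiv.symm_apply_apply]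

/-- the shift of `ℝ^ℤ` -/
def shiftZ : (ℤ → ℝ) ≃ᵐ (ℤ → ℝ) where
  toFun w := fun k => w (k + 1)
  invFun w := fun k => w (k - 1)
  left_inv w := by funext k; simp
  right_inv w := by funext k; simp
  measurable_toFun := measurable_pi_lambda _ fun k => measurable_pi_apply (k + 1)
  measurable_invFun := measurable_pi_lambda _ fun k => measurable_pi_apply (k - 1)

/-- the itinerary of a point with respect to a set -/
noncomputable def itin (R : Autom) (A : Set R.X) (x : R.X) (k : ℤ) : ℝ :=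
  A.indicator (fun _ => (1 : ℝ)) (it R k x)

theorem itin_meas (R : Autom) {A : Set R.X} (hA : MeasurableSet A) : Measurable (itin R A) :=
  measurable_pi_lambda _ fun k => (measurable_const.indicator hA).comp (it_mp R k).measurable

theorem itin_T (R : Autom) (A : Set R.X) (x : R.X) : itin R A (R.T x) = shiftZ (itin R A x) := by
  funext k
  change _ = itin R A x (k + 1)
  simp only [itin, it_succ]

/-- the factor generated by a set -/
noncomputable def setAutom (R : Autom) {A : Set R.X} (hA : MeasurableSet A) : Autom :=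
  haveI : IsProbabilityMeasure (R.μ.map (itin R A)) :=
    Measure.isProbabilityMeasure_map (itin_meas R hA).aemeasurable
  { X := ℤ → ℝ
    μ := R.μ.map (itin R A)
    T := shiftZ
    mp := by
      refine ⟨shiftZ.measurable, ?_⟩
      rw [Measure.map_map shiftZ.measurable (itin_meas R hA)]
      have h : ⇑shiftZ ∘ itin R A = itin R A ∘ R.T := funext fun x => (itin_T R A x).symm
      rw [h, ← Measure.map_map (itin_meas R hA) R.T.measurable, R.mp.map_eq] }

theorem descent (hF : IsCharacteristicClass F) {R R' : Autom} {p : R.X → R'.X}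
    (hp : IsFactorMap R R' p) {A : Set R'.X} (hA : MeasurableSet A) (h : FM F R (p ⁻¹' A)) :
    FM F R' A := by
  obtain ⟨-, Q, hQ, π, hπ, B, hB, hAB⟩ := h
  have h1 : IsFactorMap R' (setAutom R' hA) (itin R' A) :=
    ⟨⟨itin_meas R' hA, rfl⟩, Eventually.of_forall fun x => itin_T R' A x⟩
  have h2 : IsFactorMap Q (setAutom R' hA) (itin Q B) := by
    refine ⟨⟨itin_meas Q hB, ?_⟩, Eventually.of_forall fun x => itin_T Q B x⟩
    change Q.μ.map (itin Q B) = R'.μ.map (itin R' A)
    rw [← hπ.mp.map_eq, ← hp.mp.map_eq, Measure.map_map (itin_meas Q hB) hπ.mp.measurable,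
      Measure.map_map (itin_meas R' hA) hp.mp.measurable]
    refine Measure.map_congr ?_
    have h3 : ∀ k : ℤ, ∀ᵐ x ∂(R.μ), (it R k x ∈ p ⁻¹' A ↔ it R k x ∈ π ⁻¹' B) := by
      intro k
      have : ∀ᵐ x ∂(R.μ), (x ∈ p ⁻¹' A ↔ x ∈ π ⁻¹' B) := by
        filter_upwards [hAB] with x hx
        exact Iff.of_eq hx
      exact (it_mp R k).quasiMeasurePreserving.ae this
    filter_upwards [ae_all_iff.2 fun k => it_eqv hπ k, ae_all_iff.2 fun k => it_eqv hp k,
      ae_all_iff.2 h3] with x hx1 hx2 hx3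
    funext k
    simp only [Function.comp_apply, itin, ← hx1 k, ← hx2 k]
    have := hx3 k
    simp only [mem_preimage] at this
    by_cases hc : p (it R k x) ∈ A
    · rw [indicator_of_mem hc, indicator_of_mem (this.1 hc)]
    · rw [indicator_of_notMem hc, indicator_of_notMem (fun h => hc (this.2 h))]
  refine ⟨hA, setAutom R' hA, hF.factor Q _ _ h2 hQ, itin R' A, h1, {w | w 0 = 1}, ?_, ?_⟩
  · exact measurableSet_eq_fun (f := fun w : ℤ → ℝ => w 0) (g := fun _ => (1 : ℝ))
      (measurable_pi_apply (0 : ℤ)) measurable_const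
  · refine Filter.EventuallyEq.of_eq (Set.ext fun x => ?_)
    change x ∈ A ↔ itin R' A x 0 = 1
    simp only [itin, it_zero]
    by_cases hc : x ∈ A
    · simp [hc]
    · simp [hc]

/-! ### A single factor generates `A(F)(R)` -/

theorem exists_factor (hF : IsCharacteristicClass F) (R : Autom) :
    ∃ Q ∈ F, ∃ π : R.X → Q.X, IsFactorMap R Q π ∧
      ∀ A, FM F R A → ∃ B, MeasurableSet B ∧ A =ᵐ[R.μ] π ⁻¹' B := by
  let Ψ : {A : Set R.X // FM F R A} → Lp ℝ 1 R.μ := fun A =>
    indicatorConstLp 1 A.2.1 (measure_ne_top R.μ A.1) (1 : ℝ)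
  have : Fact ((1 : ℝ≥0∞) ≠ ∞) := ⟨ENNReal.one_ne_top⟩
  have : SecondCountableTopology (range Ψ) := inferInstance
  obtain ⟨c, hc, hcd⟩ := TopologicalSpace.exists_countable_dense (range Ψ)
  have hcA : ∀ a : c, ∃ A : {A : Set R.X // FM F R A}, Ψ A = (a : range Ψ) := fun a => a.1.2
  choose A hA using hcA
  have hcc : Countable c := hc.to_subtype
  choose hAm Q hQ π hπ B hB hAB using fun a : c => (A a).2
  -- reindex by a type in the lowest universe
  obtain ⟨J, hJ, e, Φ, he, hΦ, heΦ⟩ : ∃ J ∈ F, ∃ (e : J.X → ∀ a : c, (Q a).X) (Φ : R.X → J.X),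
      Measurable e ∧ IsFactorMap R J Φ ∧ ∀ x a, e (Φ x) a = π a x := exists_join hF hQ hπ
  refine ⟨J, hJ, Φ, hΦ, fun D hD => ?_⟩
  have hle : J.ms.comap Φ ≤ R.ms := hΦ.mp.measurable.comap_le
  have hcl : IsClosed {f : Lp ℝ 1 R.μ | AEStronglyMeasurable[J.ms.comap Φ] f R.μ} :=
    isClosed_aestronglyMeasurable hle
  have hmem : ∀ a : c, Ψ (A a) ∈ {f : Lp ℝ 1 R.μ | AEStronglyMeasurable[J.ms.comap Φ] f R.μ} := by
    intro a
    have h1 : (Ψ (A a) : R.X → ℝ) =ᵐ[R.μ] ((Φ ⁻¹' ((fun z => e z a) ⁻¹' B a)).indicator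
        fun _ => (1 : ℝ)) := by
      refine indicatorConstLp_coeFn.trans ?_
      refine indicator_ae_eq_of_ae_eq_set ?_
      refine (hAB a).trans (Filter.EventuallyEq.of_eq (Set.ext fun x => ?_))
      simp only [mem_preimage, heΦ]
    refine ⟨_, ?_, h1⟩
    refine StronglyMeasurable.indicator stronglyMeasurable_const ?_
    exact ⟨(fun z => e z a) ⁻¹' B a, ((measurable_pi_apply a).comp he) (hB a), rfl⟩
  have hD1 : Ψ ⟨D, hD⟩ ∈ {f : Lp ℝ 1 R.μ | AEStronglyMeasurable[J.ms.comap Φ] f R.μ} := by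
    have h2 : (⟨Ψ ⟨D, hD⟩, ⟨D, hD⟩, rfl⟩ : range Ψ) ∈ closure c := hcd _
    have h3 : IsClosed {f : range Ψ | AEStronglyMeasurable[J.ms.comap Φ] (f : Lp ℝ 1 R.μ) R.μ} :=
      hcl.preimage continuous_subtype_val
    refine closure_minimal (s := c) ?_ h3 h2
    intro f hf
    have := hmem ⟨f, hf⟩
    rw [hA ⟨f, hf⟩] at this
    exact this
  obtain ⟨g, hg, hDg⟩ := hD1
  have h4 : MeasurableSet[J.ms.comap Φ] {x | g x = 1} :=
    hg.measurable (measurableSet_singleton (1 : ℝ))
  obtain ⟨B', hB', hB2⟩ := h4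
  refine ⟨B', hB', ?_⟩
  rw [hB2]
  have h5 : (Ψ ⟨D, hD⟩ : R.X → ℝ) =ᵐ[R.μ] D.indicator fun _ => (1 : ℝ) := indicatorConstLp_coeFn
  filter_upwards [h5, hDg] with x hx1 hx2
  have h6 : g x = D.indicator (fun _ => (1 : ℝ)) x := by rw [← hx2, hx1]
  refine propext ?_
  change x ∈ D ↔ g x = 1
  rw [h6]
  by_cases hc : x ∈ D <;> simp [hc]

/-! ### The law of large numbers -/

section LLN

variable {Y : Type} [MeasurableSpace Y] [StandardBorelSpace Y] {ν : Measure Y}
  [IsProbabilityMeasure ν]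

omit [StandardBorelSpace Y] in
theorem lln (E : Set Y) (hE : MeasurableSet E) :
    ∀ᵐ y ∂(Measure.infinitePi fun _ : ℕ => ν),
      Tendsto (fun n : ℕ => (∑ i ∈ Finset.range n, E.indicator (fun _ => (1 : ℝ)) (y i)) / n)
        atTop (𝓝 (ν.real E)) := by
  have hm : Measurable (E.indicator fun _ => (1 : ℝ)) := measurable_const.indicator hE
  have h1 := strong_law_ae_real (μ := Measure.infinitePi fun _ : ℕ => ν)
    (fun i (y : ℕ → Y) => E.indicator (fun _ => (1 : ℝ)) (y i)) ?_ ?_ ?_
  · have h2 : (∫ y : ℕ → Y, E.indicator (fun _ => (1 : ℝ)) (y 0)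
        ∂(Measure.infinitePi fun _ : ℕ => ν)) = ν.real E := by
      have h3 := (measurePreserving_eval_infinitePi (fun _ : ℕ => ν) 0)
      have h4 := integral_map (μ := Measure.infinitePi fun _ : ℕ => ν)
        h3.measurable.aemeasurable (f := E.indicator (fun _ => (1 : ℝ)))
        hm.aestronglyMeasurable
      rw [h3.map_eq] at h4
      rw [← integral_indicator_one hE]
      exact h4.symm
    rw [h2] at h1
    exact h1
  · exact Integrable.indicator (s := {y : ℕ → Y | y 0 ∈ E}) (f := fun _ => (1 : ℝ))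
      (integrable_const (1 : ℝ)) ((measurable_pi_apply 0) hE)
  · intro i j hij
    exact (iIndepFun_infinitePi (P := fun _ : ℕ => ν)
      (X := fun _ => E.indicator fun _ => (1 : ℝ)) fun _ => hm).indepFun hij
  · intro i
    refine ⟨(hm.comp (measurable_pi_apply i)).aemeasurable,
      (hm.comp (measurable_pi_apply 0)).aemeasurable, ?_⟩
    have h3 := (measurePreserving_eval_infinitePi (fun _ : ℕ => ν) i)
    have h4 := (measurePreserving_eval_infinitePi (fun _ : ℕ => ν) 0)
    have h5 := Measure.map_map (μ := Measure.infinitePi fun _ : ℕ => ν) hm h3.measurable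
    have h6 := Measure.map_map (μ := Measure.infinitePi fun _ : ℕ => ν) hm h4.measurable
    rw [h3.map_eq] at h5
    rw [h4.map_eq] at h6
    exact h5.symm.trans h6

variable {F : Set Autom} {S : Autom}

theorem fst_factor (S : Autom) (Z : Type) [MeasurableSpace Z] [StandardBorelSpace Z]
    (P : Measure Z) [IsProbabilityMeasure P] : IsFactorMap (S.prodId Z P) S Prod.fst :=
  ⟨measurePreserving_fst (μ := S.μ) (ν := P), Eventually.of_forall fun _ => rfl⟩

theorem snd_factor (S : Autom) (Z : Type) [MeasurableSpace Z] [StandardBorelSpace Z]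
    (P : Measure Z) [IsProbabilityMeasure P] :
    IsFactorMap (S.prodId Z P) (idAutom Z P) Prod.snd :=
  ⟨measurePreserving_snd (μ := S.μ) (ν := P), Eventually.of_forall fun _ => rfl⟩

theorem fm_comp {R Q : Autom} {π : R.X → Q.X} (hπ : IsFactorMap R Q π) {A : Set Q.X}
    (h : FM F Q A) : FM F R (π ⁻¹' A) := by
  obtain ⟨hA, P, hP, ρ, hρ, B, hB, hAB⟩ := h
  refine ⟨hπ.mp.measurable hA, P, hP, ρ ∘ π, hρ.comp hπ, B, hB, ?_⟩
  exact hπ.mp.quasiMeasurePreserving.preimage_ae_eq hAB

theorem fm_of_mem {R Q : Autom} (hQ : Q ∈ F) {π : R.X → Q.X} (hπ : IsFactorMap R Q π)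
    {B : Set Q.X} (hB : MeasurableSet B) : FM F R (π ⁻¹' B) :=
  ⟨hπ.mp.measurable hB, Q, hQ, π, hπ, B, hB, Filter.EventuallyEq.rfl⟩

/-- the coordinate maps from the infinite product -/
theorem coord_factor (i : ℕ) :
    IsFactorMap (S.prodId (ℕ → Y) (Measure.infinitePi fun _ : ℕ => ν)) (S.prodId Y ν)
      (fun z => (z.1, z.2 i)) := by
  refine ⟨?_, Eventually.of_forall fun _ => rfl⟩
  exact (MeasurePreserving.id S.μ).prod (measurePreserving_eval_infinitePi (fun _ : ℕ => ν) i)

/-- the section function `x ↦ ν {y ∈ C : (x, y) ∈ D}` is `A(F)(S)`-measurable -/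
theorem section_meas (hF : IsCharacteristicClass F) {D : Set (S.X × Y)}
    (hD : FM F (S.prodId Y ν) D) {C : Set Y} (hC : MeasurableSet C) :
    Measurable[alg hF S] fun x : S.X => ν.real ({y | (x, y) ∈ D} ∩ C) := by
  have hDm : MeasurableSet D := hD.1
  -- the function is measurable in the ordinary sense
  have hDC : MeasurableSet (D ∩ (Prod.snd ⁻¹' C)) := hDm.inter (measurable_snd hC)
  have hfm : Measurable fun x : S.X => ν.real ({y | (x, y) ∈ D} ∩ C) := by
    have := measurable_measure_prodMk_left (ν := ν) hDC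
    exact this.ennreal_toReal
  set R := S.prodId (ℕ → Y) (Measure.infinitePi fun _ : ℕ => ν) with hR
  -- the sets `E i`
  let E : ℕ → Set R.X := fun i => (fun z : S.X × (ℕ → Y) => (z.1, z.2 i)) ⁻¹' (D ∩ (Prod.snd ⁻¹' C))
  have hE : ∀ i, FM F R (E i) := by
    intro i
    refine fm_comp (coord_factor i) ?_
    have h1 : FM F (S.prodId Y ν) (Prod.snd ⁻¹' C) :=
      fm_of_mem (hF.identity Y ν) (snd_factor S Y ν) hC
    exact @MeasurableSet.inter _ (alg hF (S.prodId Y ν)) _ _ hD h1
  let avg : ℕ → R.X → ℝ := fun n z =>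
    (∑ i ∈ Finset.range n, (E i).indicator (fun _ => (1 : ℝ)) z) / n
  have havg : ∀ n, Measurable[alg hF R] (avg n) := by
    intro n
    refine Measurable.div_const (Finset.measurable_fun_sum _ fun i _ => ?_) _
    exact Measurable.indicator measurable_const (hE i)
  have hlim : ∀ᵐ z ∂(R.μ), Tendsto (fun n => avg n z) atTop
      (𝓝 (ν.real ({y | (z.1, y) ∈ D} ∩ C))) := by
    have hmeas : MeasurableSet {z : R.X | Tendsto (fun n => avg n z) atTop
        (𝓝 (ν.real ({y | (z.1, y) ∈ D} ∩ C)))} :=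
      measurableSet_tendsto_fun (fun n => (havg n).mono (alg_le hF R) le_rfl)
        (hfm.comp measurable_fst)
    refine (Measure.ae_prod_iff_ae_ae (μ := S.μ) (ν := Measure.infinitePi fun _ : ℕ => ν)
      hmeas).2 (Eventually.of_forall fun x => ?_)
    have hsec : MeasurableSet ({y | (x, y) ∈ D} ∩ C) := measurable_prodMk_left hDC
    filter_upwards [lln (ν := ν) _ hsec] with y hy
    exact hy
  intro s hs
  have hlimsup : Measurable[alg hF R] fun z => limsup (fun n => avg n z) atTop :=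
    Measurable.limsup havg
  change FM F S _
  refine descent hF (fst_factor S _ _) (hfm hs) (p := Prod.fst)
    (R := S.prodId (ℕ → Y) (Measure.infinitePi fun _ : ℕ => ν)) ?_
  refine fm_congr (hlimsup hs) (measurable_fst (hfm hs)) ?_
  filter_upwards [hlim] with z hz
  refine propext ?_
  change ν.real ({y | (z.1, y) ∈ D} ∩ C) ∈ s ↔ limsup (fun n => avg n z) atTop ∈ s
  rw [hz.limsup_eq]

/-- every set of `A(F)(S × Id)` is, modulo null sets, in `A(F)(S) ⊗ 𝒞` -/
theorem mem_prod (hF : IsCharacteristicClass F) {D : Set (S.X × Y)}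
    (hD : FM F (S.prodId Y ν) D) :
    ∃ D' : Set (S.X × Y), MeasurableSet[(alg hF S).prod inferInstance] D' ∧
      D =ᵐ[S.μ.prod ν] D' := by
  have hDm : MeasurableSet D := hD.1
  let κ : @Kernel S.X Y (alg hF S) _ :=
    @Kernel.mk S.X Y (alg hF S) _ (fun x => ν.restrict {y | (x, y) ∈ D}) (by
      refine @Measure.measurable_of_measurable_coe _ _ _ (alg hF S) _ fun C hC => ?_
      have h1 := (section_meas hF hD hC).ennreal_ofReal
      have h2 : (fun x : S.X => ENNReal.ofReal (ν.real ({y | (x, y) ∈ D} ∩ C))) =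
          fun x => (ν.restrict {y | (x, y) ∈ D}) C := by
        funext x
        rw [Measure.restrict_apply hC, ofReal_measureReal, inter_comm]
      rwa [h2] at h1)
  have hκ : ∀ x, κ x = ν.restrict {y | (x, y) ∈ D} := fun x => rfl
  let η : @Kernel S.X Y (alg hF S) _ :=
    @Kernel.mk S.X Y (alg hF S) _ (fun _ => ν) (@measurable_const _ _ _ (alg hF S) ν)
  have hη : ∀ x, η x = ν := fun x => rfl
  have hκf : @IsFiniteKernel S.X Y (alg hF S) _ κ := by
    refine @IsFiniteKernel.mk _ _ (alg hF S) _ κ ⟨1, ENNReal.one_lt_top, fun x => ?_⟩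
    rw [hκ]
    exact (Measure.restrict_apply_le _ _).trans prob_le_one
  have hηf : @IsFiniteKernel S.X Y (alg hF S) _ η := by
    refine @IsFiniteKernel.mk _ _ (alg hF S) _ η ⟨1, ENNReal.one_lt_top, fun x => ?_⟩
    rw [hη]
    exact prob_le_one
  have hg : @Measurable (S.X × Y) ℝ≥0∞ (@Prod.instMeasurableSpace _ _ (alg hF S) _) _
      (fun z => @Kernel.rnDeriv S.X Y (alg hF S) _ _ κ η z.1 z.2) :=
    @Kernel.measurable_rnDeriv S.X Y (alg hF S) _ _ κ η
  refine ⟨{z | @Kernel.rnDeriv S.X Y (alg hF S) _ _ κ η z.1 z.2 = 1},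
    hg (measurableSet_singleton 1), ?_⟩
  have hle : @Prod.instMeasurableSpace _ _ (alg hF S) (inferInstance : MeasurableSpace Y) ≤
      (inferInstance : MeasurableSpace (S.X × Y)) :=
    sup_le_sup (MeasurableSpace.comap_mono (alg_le hF S)) le_rfl
  have hgm := hle _ (hg (measurableSet_singleton 1))
  have hmeas : MeasurableSet {z : S.X × Y | z ∈ D ↔
      @Kernel.rnDeriv S.X Y (alg hF S) _ _ κ η z.1 z.2 = 1} := by
    have : {z : S.X × Y | z ∈ D ↔ @Kernel.rnDeriv S.X Y (alg hF S) _ _ κ η z.1 z.2 = 1} =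
        (D ∩ {z | @Kernel.rnDeriv S.X Y (alg hF S) _ _ κ η z.1 z.2 = 1}) ∪
        (Dᶜ ∩ {z | @Kernel.rnDeriv S.X Y (alg hF S) _ _ κ η z.1 z.2 = 1}ᶜ) := by
      ext z
      simp only [mem_union, mem_inter_iff, mem_compl_iff]
      change (_ ↔ _) ↔ (_ ∧ _) ∨ (_ ∧ ¬ _)
      tauto
    rw [this]
    exact (hDm.inter hgm).union (hDm.compl.inter hgm.compl)
  have key := (Measure.ae_prod_iff_ae_ae (μ := S.μ) (ν := ν) hmeas).2
    (Eventually.of_forall fun x => ?_)
  · filter_upwards [key] with z hz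
    exact propext hz
  · have h1 := @Kernel.rnDeriv_eq_rnDeriv_measure S.X Y (alg hF S) _ κ η _ hηf hκf x
    rw [hκ, hη] at h1
    have h2 := Measure.rnDeriv_restrict_self ν (s := {y | (x, y) ∈ D})
      (measurable_prodMk_left hDm)
    filter_upwards [h1, h2] with y hy1 hy2
    rw [hy1, hy2]
    by_cases hc : (x, y) ∈ D
    · simp [hc]
    · simp [hc]

end LLN

/-! ### The theorem -/

variable {S : Autom}

/-- a sub-σ-algebra equal to `A(F)(R)` modulo null sets -/
theorem isLargest_iff (hF : IsCharacteristicClass F) (R : Autom) (m : MeasurableSpace R.X) :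
    IsLargestFactor F R m ↔ (∀ A, MeasurableSet[m] A → FM F R A) ∧
      (∀ A, FM F R A → ∃ A', MeasurableSet[m] A' ∧ A =ᵐ[R.μ] A') := by
  constructor
  · rintro ⟨h1, ⟨Q, hQ, π, hπ, h2, h3⟩, h4⟩
    refine ⟨fun A hA => ?_, fun A hA => ?_⟩
    · obtain ⟨B, hB, hAB⟩ := h2 A hA
      exact ⟨h1 A hA, Q, hQ, π, hπ, B, hB, hAB⟩
    · obtain ⟨-, P, hP, ρ, hρ, B, hB, hAB⟩ := hA
      obtain ⟨A', hA', he⟩ := h4 P hP ρ hρ B hB
      exact ⟨A', hA', hAB.trans he.symm⟩
  · rintro ⟨h1, h2⟩
    refine ⟨fun A hA => (h1 A hA).1, ?_, ?_⟩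
    · obtain ⟨Q, hQ, π, hπ, h3⟩ := exists_factor hF R
      refine ⟨Q, hQ, π, hπ, fun A hA => h3 A (h1 A hA), fun B hB => ?_⟩
      obtain ⟨A', hA', he⟩ := h2 _ (fm_of_mem hQ hπ hB)
      exact ⟨A', hA', he.symm⟩
    · intro Q hQ π hπ B hB
      obtain ⟨A', hA', he⟩ := h2 _ (fm_of_mem hQ hπ hB)
      exact ⟨A', hA', he.symm⟩

theorem prod_le {α β : Type} (m₁ m : MeasurableSpace α) (mβ : MeasurableSpace β)
    (l : Filter (α × β)) [CountableInterFilter l]
    (h : ∀ A, MeasurableSet[m₁] A → ∃ A', MeasurableSet[m] A' ∧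
      (Prod.fst ⁻¹' A : Set (α × β)) =ᶠ[l] (Prod.fst ⁻¹' A' : Set (α × β)))
    (D : Set (α × β)) (hD : MeasurableSet[m₁.prod mβ] D) :
    ∃ D', MeasurableSet[m.prod mβ] D' ∧ D =ᶠ[l] D' := by
  have hle : m₁.prod mβ ≤ @eventuallyMeasurableSpace (α × β) (m.prod mβ) l _ := by
    refine sup_le ?_ ?_
    · rintro _ ⟨A, hA, rfl⟩
      obtain ⟨A', hA', hAA'⟩ := h A hA
      refine ⟨Prod.fst ⁻¹' A', ?_, hAA'⟩
      exact (le_sup_left : m.comap Prod.fst ≤ m.prod mβ) _ ⟨A', hA', rfl⟩
    · rintro _ ⟨C, hC, rfl⟩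
      refine ⟨Prod.snd ⁻¹' C, ?_, .rfl⟩
      exact (le_sup_right : mβ.comap Prod.snd ≤ m.prod mβ) _ ⟨C, hC, rfl⟩
  exact hle D hD

theorem preimage_fst_ae (S : Autom) {Y : Type} [MeasurableSpace Y] [StandardBorelSpace Y]
    (ν : Measure Y) [IsProbabilityMeasure ν] {A A' : Set S.X} (h : A =ᵐ[S.μ] A') :
    (Prod.fst ⁻¹' A : Set (S.X × Y)) =ᶠ[(ae (S.prodId Y ν).μ : Filter (S.X × Y))]
      (Prod.fst ⁻¹' A' : Set (S.X × Y)) :=
  (fst_factor S Y ν).mp.quasiMeasurePreserving.preimage_ae_eq h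

theorem prod_le' (hF : IsCharacteristicClass F) {Y : Type} [mY : MeasurableSpace Y]
    [StandardBorelSpace Y] (ν : Measure Y) [IsProbabilityMeasure ν] (D : Set (S.X × Y))
    (hD : MeasurableSet[(alg hF S).prod mY] D) :
    ∀ m : MeasurableSpace S.X, (∀ A, FM F S A → ∃ A', MeasurableSet[m] A' ∧ A =ᵐ[S.μ] A') →
      ∃ D', MeasurableSet[m.prod mY] D' ∧ D =ᶠ[(ae (S.prodId Y ν).μ : Filter (S.X × Y))] D' := by
  have hcount : CountableInterFilter (ae (S.prodId Y ν).μ : Filter (S.X × Y)) :=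
    inferInstanceAs (CountableInterFilter (ae (S.prodId Y ν).μ))
  have key : ∀ A A' : Set S.X, A =ᵐ[S.μ] A' →
      (Prod.fst ⁻¹' A : Set (S.X × Y)) =ᶠ[(ae (S.prodId Y ν).μ : Filter (S.X × Y))]
      (Prod.fst ⁻¹' A' : Set (S.X × Y)) := fun A A' h => preimage_fst_ae S ν h
  generalize (ae (S.prodId Y ν).μ : Filter (S.X × Y)) = l at hcount key ⊢
  intro m hm2
  refine prod_le (alg hF S) m mY l (fun A hA => ?_) D hD
  obtain ⟨A', hA', hAA'⟩ := hm2 A hA
  exact ⟨A', hA', key A A' hAA'⟩

/-- **The product formula.** Let `F` be a characteristic class containing the identity maps, `S` an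
automorphism of a standard probability space (ergodic or not) and `(Y, ν)` a standard probability
space. Then the largest factor `A(F)(S)` belonging to `F` exists, and if the σ-algebra `m` is
`A(F)(S)` modulo null sets, then `m ⊗ 𝒞` (with `𝒞` the Borel σ-algebra of `Y`) is
`A(F)(S × Id_Y)` modulo null sets. -/
theorem result (F : Set Autom) (hF : IsCharacteristicClass F) (S : Autom)
    (Y : Type) [MeasurableSpace Y] [StandardBorelSpace Y] (ν : Measure Y)
    [IsProbabilityMeasure ν] :
    (∃ m, IsLargestFactor F S m) ∧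
      ∀ m : MeasurableSpace S.X, IsLargestFactor F S m →
        IsLargestFactor F (S.prodId Y ν) (m.prod inferInstance) := by
  refine ⟨⟨alg hF S, (isLargest_iff hF S _).2 ⟨fun A hA => hA, fun A hA => ⟨A, hA, .rfl⟩⟩⟩, ?_⟩
  intro m hm
  rw [isLargest_iff hF] at hm
  obtain ⟨hm1, hm2⟩ := hm
  refine (isLargest_iff hF (S.prodId Y ν) (m.prod inferInstance)).2 ?_
  constructor
  · have hle : (m.prod inferInstance : MeasurableSpace (S.X × Y)) ≤ alg hF (S.prodId Y ν) := by
      refine sup_le ?_ ?_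
      · rintro _ ⟨A, hA, rfl⟩
        exact fm_comp (fst_factor S Y ν) (hm1 A hA)
      · rintro _ ⟨C, hC, rfl⟩
        exact fm_of_mem (hF.identity Y ν) (snd_factor S Y ν) hC
    exact fun A hA => hle A hA
  · intro D hD
    obtain ⟨D', hD', he⟩ := mem_prod hF hD
    obtain ⟨D'', hD'', he'⟩ := prod_le' hF ν D' hD' m hm2
    exact ⟨D'', hD'', he.trans he'⟩

end Pool.Agent.Results.MP_5351bf_an.ProductFormula
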